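import Pool.Agent.Helper34.Sys.Iface

/-!
# No isometric cycles of length at least 4

In a connected graph with no induced 4-cycle and no induced 5-cycle in a neighbourhood, whose balls
satisfy the two facts h1 (the predecessors of a vertex form a clique) and h2 (the two ends of an
edge inside a sphere have a common predecessor), no isometric cycle has length at least 4.
-/

set_option autoImplicit false

namespace Pool.Agent.Helper83.Sys

open Pool.Agent.Helper34.Sys

/-- No isometric cycle of length at least 4. -/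
theorem noIso {V : Type} {G : SimpleGraph V} (hG : G.Connected) (hL : Loc6 G)
    (h1 : ∀ v w x y, G.Adj w x → G.Adj w y → G.dist v x + 1 = G.dist v w →
      G.dist v y + 1 = G.dist v w → x = y ∨ G.Adj x y)
    (h2 : ∀ v x y, G.Adj x y → G.dist v x = G.dist v y →
      ∃ z, G.Adj x z ∧ G.Adj y z ∧ G.dist v z + 1 = G.dist v x) :
    ∀ n : ℕ, 4 ≤ n → ∀ c : Fin n → V, ¬ ∀ i j : Fin n, G.dist (c i) (c j) =
      min ((i : ℕ) - (j : ℕ) + ((j : ℕ) - (i : ℕ)))
        (n - ((i : ℕ) - (j : ℕ) + ((j : ℕ) - (i : ℕ)))) := by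
  intro n hn c H
  have D : ∀ (i j : ℕ) (hi : i < n) (hj : j < n), G.dist (c ⟨i, hi⟩) (c ⟨j, hj⟩) =
      min (i - j + (j - i)) (n - (i - j + (j - i))) := fun i j hi hj => H ⟨i, hi⟩ ⟨j, hj⟩
  have adj1 : ∀ a b : V, G.dist a b = 1 → G.Adj a b := fun a b h =>
    SimpleGraph.dist_eq_one_iff_adj.1 h
  have one1 : ∀ a b : V, G.Adj a b → G.dist a b = 1 := fun a b h =>
    SimpleGraph.dist_eq_one_iff_adj.2 h
  have le1 : ∀ a b : V, (a = b ∨ G.Adj a b) → G.dist a b ≤ 1 := by
    intro a b h
    rcases h with h | h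
    · rw [h, SimpleGraph.dist_self]; omega
    · exact (one1 a b h).le
  rcases Nat.even_or_odd' n with ⟨m, hm | hm⟩
  · -- even
    have e1 := D m (m - 1) (by omega) (by omega)
    have e2 := D m (m + 1) (by omega) (by omega)
    have e3 := D 0 m (by omega) (by omega)
    have e4 := D 0 (m - 1) (by omega) (by omega)
    have e5 := D 0 (m + 1) (by omega) (by omega)
    have e6 := D (m - 1) (m + 1) (by omega) (by omega)
    have a1 := adj1 _ _ (e1.trans (by omega))
    have a2 := adj1 _ _ (e2.trans (by omega))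
    have := le1 _ _ (h1 _ _ _ _ a1 a2 (by rw [e3, e4]; omega) (by rw [e3, e5]; omega))
    rw [e6] at this
    omega
  · -- odd
    have e1 := D m (m + 1) (by omega) (by omega)
    have e2 := D 0 m (by omega) (by omega)
    have e3 := D 0 (m + 1) (by omega) (by omega)
    obtain ⟨z, hz1, hz2, hz3⟩ := h2 _ _ _ (adj1 _ _ (e1.trans (by omega)))
      (show G.dist (c ⟨0, by omega⟩) (c ⟨m, by omega⟩) =
        G.dist (c ⟨0, by omega⟩) (c ⟨m + 1, by omega⟩) by rw [e2, e3]; omega)
    have e4 := D m (m - 1) (by omega) (by omega)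
    have e5 := D (m + 1) (m + 2) (by omega) (by omega)
    have e6 := D 0 (m - 1) (by omega) (by omega)
    have e7 := D 0 (m + 2) (by omega) (by omega)
    have e8 := D (m - 1) (m + 2) (by omega) (by omega)
    have b1 := h1 _ _ _ _ (adj1 _ _ (e4.trans (by omega))) hz1
      (show G.dist (c ⟨0, by omega⟩) _ + 1 = _ by rw [e6, e2]; omega) hz3
    have b2 := h1 _ _ _ _ (adj1 _ _ (e5.trans (by omega))) hz2
      (show G.dist (c ⟨0, by omega⟩) _ + 1 = _ by rw [e7, e3]; omega)
      (by rw [hz3, e2, e3]; omega)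
    by_cases hm3 : 3 ≤ m
    · have t := hG.dist_triangle (u := c ⟨m - 1, by omega⟩) (v := z)
        (w := c ⟨m + 2, by omega⟩)
      have l1 := le1 _ _ b1
      have l2 := le1 _ _ b2
      rw [SimpleGraph.dist_comm] at l2
      rw [e8] at t
      omega
    · have hm2 : m = 2 := by omega
      subst hm2
      subst hm
      have E : ∀ (i j : ℕ) (hi : i < 2 * 2 + 1) (hj : j < 2 * 2 + 1),
          G.dist (c ⟨i, hi⟩) (c ⟨j, hj⟩) =
          min (i - j + (j - i)) (2 * 2 + 1 - (i - j + (j - i))) := D
      have ne : ∀ (i j : ℕ) (hi : i < 2 * 2 + 1) (hj : j < 2 * 2 + 1),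
          min (i - j + (j - i)) (2 * 2 + 1 - (i - j + (j - i))) = 2 →
          c ⟨i, hi⟩ ≠ c ⟨j, hj⟩ := by
        intro i j hi hj h h'
        have := E i j hi hj
        rw [h', SimpleGraph.dist_self, h] at this
        omega
      have na : ∀ (i j : ℕ) (hi : i < 2 * 2 + 1) (hj : j < 2 * 2 + 1),
          min (i - j + (j - i)) (2 * 2 + 1 - (i - j + (j - i))) = 2 →
          ¬ G.Adj (c ⟨i, hi⟩) (c ⟨j, hj⟩) := by
        intro i j hi hj h h'
        have := E i j hi hj
        rw [one1 _ _ h', h] at this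
        omega
      have ad : ∀ (i j : ℕ) (hi : i < 2 * 2 + 1) (hj : j < 2 * 2 + 1),
          min (i - j + (j - i)) (2 * 2 + 1 - (i - j + (j - i))) = 1 →
          G.Adj (c ⟨i, hi⟩) (c ⟨j, hj⟩) := by
        intro i j hi hj h
        exact adj1 _ _ ((E i j hi hj).trans h)
      have z0 : G.Adj z (c ⟨0, by omega⟩) := by
        apply SimpleGraph.Adj.symm
        apply adj1
        have := hz3
        rw [e2] at this
        omega
      have z1 : G.Adj z (c ⟨1, by omega⟩) := by
        rcases b1 with h | h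
        · exfalso
          rw [← h] at hz2
          exact na 3 1 (by omega) (by omega) (by omega) hz2
        · exact h.symm
      have z4 : G.Adj z (c ⟨4, by omega⟩) := by
        rcases b2 with h | h
        · exfalso
          rw [← h] at hz1
          exact na 2 4 (by omega) (by omega) (by omega) hz1
        · exact h.symm
      have z2 : G.Adj z (c ⟨2, by omega⟩) := hz1.symm
      have z3 : G.Adj z (c ⟨3, by omega⟩) := hz2.symm
      exact hL.2 z _ _ _ _ _ z0 z1 z2 z3 z4
        (ad 0 1 (by omega) (by omega) (by omega))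
        (ad 1 2 (by omega) (by omega) (by omega))
        (ad 2 3 (by omega) (by omega) (by omega))
        (ad 3 4 (by omega) (by omega) (by omega))
        (ad 4 0 (by omega) (by omega) (by omega))
        (ne 0 2 (by omega) (by omega) (by omega))
        (na 0 2 (by omega) (by omega) (by omega))
        (ne 1 3 (by omega) (by omega) (by omega))
        (na 1 3 (by omega) (by omega) (by omega))
        (ne 2 4 (by omega) (by omega) (by omega))
        (na 2 4 (by omega) (by omega) (by omega))
        (ne 3 0 (by omega) (by omega) (by omega))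
        (na 3 0 (by omega) (by omega) (by omega))
        (ne 4 1 (by omega) (by omega) (by omega))
        (na 4 1 (by omega) (by omega) (by omega))

/-- The two facts from a tower over every root. -/
theorem h12_of_tower {V : Type} {G : SimpleGraph V} (_hG : G.Connected) (T : ∀ v, Tower G v)
    (_hinj : ∀ v e f, (T v).p e = (T v).p f → e = f)
    (hdist : ∀ v e, G.dist v ((T v).p e) = (T v).lev e)
    (hsurj : ∀ v x, ∃ e, (T v).p e = x) :
    (∀ v w x y, G.Adj w x → G.Adj w y → G.dist v x + 1 = G.dist v w →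
      G.dist v y + 1 = G.dist v w → x = y ∨ G.Adj x y) ∧
    (∀ v x y, G.Adj x y → G.dist v x = G.dist v y →
      ∃ z, G.Adj x z ∧ G.Adj y z ∧ G.dist v z + 1 = G.dist v x) := by
  refine ⟨?_, ?_⟩
  · intro v w x y hx hy dx dy
    obtain ⟨e, rfl⟩ := hsurj v w
    obtain ⟨f, hf, rfl⟩ := (T v).lift e x hx
    obtain ⟨g, hg, rfl⟩ := (T v).lift e y hy
    rw [hdist, hdist] at dx dy
    rcases (T v).clique e f g hf hg dx dy with h | h
    · exact Or.inl (by rw [h])
    · exact Or.inr ((T v).adj _ _ h)
  · intro v x y hxy d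
    obtain ⟨e, rfl⟩ := hsurj v x
    obtain ⟨f, hf, rfl⟩ := (T v).lift e y hxy
    rw [hdist, hdist] at d
    obtain ⟨g, h1, h2, h3⟩ := (T v).common e f hf d
    refine ⟨(T v).p g, (T v).adj _ _ h1, (T v).adj _ _ h2, ?_⟩
    rw [hdist, hdist]
    exact h3

end Pool.Agent.Helper83.Sys
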